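import Pool.Agent.H30.AV.Targets3

/-!
# MP_70ba79_ag: row BZE of the board `avr_modules`: the case of dimension zero
-/

set_option autoImplicit false

namespace Pool.Agent.H20.AV

open MvPolynomial SC Pool.Agent.H27.LV Pool.Agent.H30.AV

/-- homogeneous components of the values of a polynomial at linear forms -/
lemma hc_aeval {k ι τ : Type} [Field k] (g : ι → MvPolynomial τ k)
    (hg : ∀ i, (g i).IsHomogeneous 1) (f : MvPolynomial ι k) (d : ℕ) :
    homogeneousComponent d (aeval g f) = aeval g (homogeneousComponent d f) := by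
  have h : ∀ e, homogeneousComponent d (aeval g (homogeneousComponent e f)) =
      if d = e then aeval g (homogeneousComponent e f) else 0 := by
    intro e
    refine homogeneousComponent_of_mem ?_
    rw [mem_homogeneousSubmodule]
    have := (homogeneousComponent_isHomogeneous e f).aeval g hg
    rwa [one_mul] at this
  conv_lhs => rw [← sum_homogeneousComponent f]
  rw [map_sum, map_sum, Finset.sum_congr rfl fun e _ => h e, Finset.sum_ite_eq]
  split_ifs with hd
  · rfl
  · rw [Finset.mem_range, not_lt] at hd
    rw [homogeneousComponent_eq_zero _ _ (by omega), map_zero]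

/-- a nonzero binary form which vanishes at `(z * t, t)`, `t ≠ 0`: then `z` is algebraic -/
lemma algebraic_of_form {k K : Type} [Field k] [Field K] [Algebra k K]
    (B : MvPolynomial (Fin 2) k) (d : ℕ) (hB : B.IsHomogeneous d) (hB0 : B ≠ 0) (z t : K)
    (ht : t ≠ 0) (h : aeval ![z * t, t] B = 0) : IsAlgebraic k z := by
  classical
  have hdeg : ∀ m ∈ B.support, m 0 + m 1 = d := by
    intro m hm
    have h1 := hB (MvPolynomial.mem_support_iff.1 hm)
    rw [Finsupp.weight_apply, Finsupp.sum_fintype _ _ (by simp)] at h1
    simpa [Fin.sum_univ_two] using h1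
  refine ⟨∑ m ∈ B.support, Polynomial.C (coeff m B) * Polynomial.X ^ (m 0), ?_, ?_⟩
  · obtain ⟨m, hm⟩ := MvPolynomial.support_nonempty.2 hB0
    intro h0
    have h1 := congrArg (fun p => Polynomial.coeff p (m 0)) h0
    simp only [Polynomial.finsetSum_coeff, Polynomial.coeff_C_mul_X_pow,
      Polynomial.coeff_zero] at h1
    rw [Finset.sum_eq_single m] at h1
    · rw [if_pos rfl] at h1
      exact (MvPolynomial.mem_support_iff.1 hm) h1
    · intro m' hm' hne
      rw [if_neg]
      intro he
      apply hne
      have h2 := hdeg m hm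
      have h3 := hdeg m' hm'
      ext i
      fin_cases i
      · exact he.symm
      · show m' 1 = m 1
        omega
    · intro hn
      exact absurd hm hn
  · rw [MvPolynomial.aeval_def, MvPolynomial.eval₂_eq'] at h
    have h1 : t ^ d * ∑ m ∈ B.support, algebraMap k K (coeff m B) * z ^ (m 0) = 0 := by
      rw [← h, Finset.mul_sum]
      refine Finset.sum_congr rfl fun m hm => ?_
      rw [Fin.prod_univ_two, ← hdeg m hm]
      simp only [Matrix.cons_val_zero, Matrix.cons_val_one]
      rw [mul_pow, pow_add]
      ring
    have h2 := (mul_eq_zero.1 h1).resolve_left (pow_ne_zero _ ht)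
    rw [map_sum, ← h2]
    refine Finset.sum_congr rfl fun m _ => ?_
    rw [map_mul, map_pow, Polynomial.aeval_C, Polynomial.aeval_X]

theorem pf_BZE (hKER : T_KER) : T_BZE := by
  intro k _ _ _ n P hPp hPh hPt K _ _ _ htr D y hD hP j
  refine hKER k K htr D hD _ ?_
  by_contra hne
  -- the two coordinates
  obtain ⟨g, hg⟩ : ∃ g : Fin 2 → MvPolynomial (Zv n) k, g = ![X (j.succ, j), X (0, j)] :=
    ⟨_, rfl⟩
  have hg1 : ∀ i, (g i).IsHomogeneous 1 := by
    intro i
    rw [hg]
    fin_cases i
    · exact isHomogeneous_X k _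
    · exact isHomogeneous_X k _
  have hdep : ¬ AlgebraicIndependent k fun i => (Ideal.Quotient.mkₐ k P) (g i) := by
    intro hi
    have h1 := hi.cardinalMk_le_trdeg.trans hPt
    rw [Cardinal.mk_fin] at h1
    have h2 : (2 : ℕ) ≤ 1 := by exact_mod_cast h1
    omega
  rw [algebraicIndependent_iff] at hdep
  push Not at hdep
  obtain ⟨f, hf, hf0⟩ := hdep
  have hfP : aeval g f ∈ P := by
    have h1 : (Ideal.Quotient.mkₐ k P) (aeval g f) = 0 := by
      rw [MvPolynomial.comp_aeval_apply]
      exact hf
    rw [Ideal.Quotient.mkₐ_eq_mk, Ideal.Quotient.eq_zero_iff_mem] at h1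
    exact h1
  have hcomp : ∃ d, homogeneousComponent d f ≠ 0 := by
    by_contra hcon
    push Not at hcon
    apply hf0
    rw [← sum_homogeneousComponent f]
    exact Finset.sum_eq_zero fun d _ => hcon d
  obtain ⟨d, hd⟩ := hcomp
  have hBP : aeval g (homogeneousComponent d f) ∈ P := by
    rw [← hc_aeval g hg1]
    exact hPh _ hfP d
  have hval := hP _ hBP
  have hval' : aeval ![y j * D (y j), D (y j)] (homogeneousComponent d f) = 0 := by
    rw [← hval, MvPolynomial.comp_aeval_apply]
    have : (fun i => aeval (lift y D) (g i)) = ![y j * D (y j), D (y j)] := by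
      funext i
      rw [hg]
      fin_cases i
      · simp [lift, seg, xx]
      · simp [lift, seg, xx]
    rw [this]
  have halg := algebraic_of_form _ d (homogeneousComponent_isHomogeneous d f) hd (y j) (D (y j))
    hne hval'
  apply hne
  have hint : IsIntegral k (y j) := halg.isIntegral
  have h1 : (minpoly k (y j)).degree = 1 := IsAlgClosed.degree_eq_one_of_irreducible k
    (minpoly.irreducible hint)
  obtain ⟨c, hc⟩ := minpoly.mem_range_of_degree_eq_one k (y j) h1
  rw [← hc]
  exact D.map_algebraMap c

end Pool.Agent.H20.AV
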